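import Mathlib

import Pool.Agent.Helper40.CX.H26VC.Chow
import Pool.Agent.Helper40.CX.H83VF.Misc
import Pool.Agent.Helper40.CX.Good

namespace CX

/-!
# Weierstrass models of elliptic surfaces over the projective line

Let `A` and `B` be binary forms of degrees `4 N` and `6 N` over `k`. The Weierstrass model is the
surface `y ^ 2 z = x ^ 3 + A (u) x z ^ 2 + B (u) z ^ 3` in the bundle of projective planes
`P (O ⊕ O (2 N) ⊕ O (3 N))` over `P¹`. Its points have homogeneous coordinates
`(u 0 : u 1; x : y : z)` with `u ≠ 0` and `(x, y, z) ≠ 0`, and for nonzero `l` and `c` the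
coordinates `(l u; l ^ (2 N) c x, l ^ (3 N) c y, c z)` describe the same point as `(u; x, y, z)`.
A morphism to it from the smooth projective curve with function field `K` is the same as a point
with coordinates in `K`; its value at a place `v` of `K` is obtained by choosing homogeneous
coordinates such that all of them are regular at `v` and neither those of `u` nor `x, y, z` all
vanish at `v`, and evaluating them at `v`.
-/

namespace Pool.Agent.Helper51.EW

open VC VF Function

universe u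

/-- A Weierstrass equation over the projective line: binary forms `A` and `B` of degrees `4 N`
and `6 N`. -/
structure Wei (k : Type u) [Field k] where
  /-- the degree of the fundamental line bundle -/
  N : ℕ
  /-- the coefficient of `x` -/
  A : MvPolynomial (Fin 2) k
  /-- the constant coefficient -/
  B : MvPolynomial (Fin 2) k
  hA : A.IsHomogeneous (4 * N)
  hB : B.IsHomogeneous (6 * N)

/-- Homogeneous coordinates, in `K`, of a point of the Weierstrass model: `u` is a point of the
projective line, `w = (x, y, z)`. -/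
structure Coord {k : Type u} [Field k] (W : Wei k) (K : Type u) [Field K] [Algebra k K] where
  /-- the coordinates of the point of the projective line -/
  u : Fin 2 → K
  /-- the coordinates `x, y, z` -/
  w : Fin 3 → K
  u_ne : u ≠ 0
  w_ne : w ≠ 0
  eqn : w 1 ^ 2 * w 2 = w 0 ^ 3 + MvPolynomial.aeval u W.A * w 0 * w 2 ^ 2 +
    MvPolynomial.aeval u W.B * w 2 ^ 3

/-- The weights: `2 N`, `3 N` and `0` for `x`, `y` and `z`. -/
def wt (N : ℕ) : Fin 3 → ℕ := ![2 * N, 3 * N, 0]

/-- Two systems of homogeneous coordinates describe the same point. -/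
def Same {k : Type u} [Field k] {W : Wei k} {K : Type u} [Field K] [Algebra k K]
    (p q : Coord W K) : Prop :=
  ∃ l c : K, l ≠ 0 ∧ c ≠ 0 ∧ (∀ i, q.u i = l * p.u i) ∧
    ∀ i, q.w i = l ^ wt W.N i * c * p.w i

section

variable {k : Type u} [Field k] {W : Wei k} {K : Type u} [Field K] [Algebra k K]

lemma Same.refl (p : Coord W K) : Same p p :=
  ⟨1, 1, one_ne_zero, one_ne_zero, fun i => by rw [one_mul], fun i => by simp⟩

lemma Same.symm {p q : Coord W K} (h : Same p q) : Same q p := by
  obtain ⟨l, c, hl, hc, h1, h2⟩ := h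
  refine ⟨l⁻¹, c⁻¹, inv_ne_zero hl, inv_ne_zero hc, fun i => ?_, fun i => ?_⟩
  · rw [h1, inv_mul_cancel_left₀ hl]
  · rw [h2, inv_pow]
    have := pow_ne_zero (wt W.N i) hl
    field_simp

lemma Same.trans {p q r : Coord W K} (h : Same p q) (h' : Same q r) : Same p r := by
  obtain ⟨l, c, hl, hc, h1, h2⟩ := h
  obtain ⟨l', c', hl', hc', h1', h2'⟩ := h'
  refine ⟨l' * l, c' * c, mul_ne_zero hl' hl, mul_ne_zero hc' hc, fun i => ?_, fun i => ?_⟩
  · rw [h1', h1]; ring
  · rw [h2', h2]; ring

/-- The equivalence of homogeneous coordinates. -/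
instance coordSetoid (W : Wei k) (K : Type u) [Field K] [Algebra k K] : Setoid (Coord W K) where
  r := Same
  iseqv := ⟨Same.refl, Same.symm, Same.trans⟩

/-- The points of the Weierstrass model with coordinates in `K`. -/
def WPt (W : Wei k) (K : Type u) [Field K] [Algebra k K] : Type u := Quotient (coordSetoid W K)

/-- The point with given homogeneous coordinates. -/
def WPt.mk (a : Coord W K) : WPt W K := Quotient.mk _ a

/-- The point `p` of the Weierstrass model is the value of the point `x` with coordinates in `K`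
at the place `v` of `K`: there are homogeneous coordinates `a` of `x` and `b` of `p` such that the
coordinates `a` have the values `b` at `v`. -/
def IsVal (v : Place k K) (x : WPt W K) (p : WPt W k) : Prop :=
  ∃ (a : Coord W K) (b : Coord W k), x = WPt.mk a ∧ p = WPt.mk b ∧
    (∀ i, a.u i - algebraMap k K (b.u i) ∈ v.ring.nonunits) ∧
    ∀ i, a.w i - algebraMap k K (b.w i) ∈ v.ring.nonunits

lemma mk_eq_iff {a b : Coord W K} : WPt.mk a = WPt.mk b ↔ Same a b := Quotient.eq

lemma exists_mk (x : WPt W K) : ∃ a, x = WPt.mk a := by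
  obtain ⟨a, ha⟩ := Quotient.exists_rep x
  exact ⟨a, ha.symm⟩

lemma aeval_smul {n : ℕ} {F : MvPolynomial (Fin 2) k} (hF : F.IsHomogeneous n) (l : K)
    (u : Fin 2 → K) : MvPolynomial.aeval (fun i => l * u i) F = l ^ n * MvPolynomial.aeval u F := by
  rw [MvPolynomial.aeval_def, MvPolynomial.aeval_def, MvPolynomial.eval₂_eq',
    MvPolynomial.eval₂_eq', Finset.mul_sum]
  apply Finset.sum_congr rfl
  intro d hd
  have h1 : ∑ i, d i = n := by
    have := hF (MvPolynomial.mem_support_iff.mp hd)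
    rw [Finsupp.weight_apply, Finsupp.sum_fintype _ _ (fun i => by simp)] at this
    simpa using this
  simp only [mul_pow, Finset.prod_mul_distrib]
  rw [Finset.prod_pow_eq_pow_sum, h1]
  ring

/-- Scaling the coordinates. -/
def scale (a : Coord W K) (l c : K) (hl : l ≠ 0) (hc : c ≠ 0) : Coord W K where
  u i := l * a.u i
  w i := l ^ wt W.N i * c * a.w i
  u_ne := by
    obtain ⟨j, hj⟩ := Function.ne_iff.mp a.u_ne
    intro h
    exact mul_ne_zero hl hj (congrFun h j)
  w_ne := by
    obtain ⟨j, hj⟩ := Function.ne_iff.mp a.w_ne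
    intro h
    exact mul_ne_zero (mul_ne_zero (pow_ne_zero _ hl) hc) hj (congrFun h j)
  eqn := by
    rw [aeval_smul W.hA, aeval_smul W.hB]
    change (l ^ (3 * W.N) * c * a.w 1) ^ 2 * (l ^ 0 * c * a.w 2) =
      (l ^ (2 * W.N) * c * a.w 0) ^ 3 + l ^ (4 * W.N) * MvPolynomial.aeval a.u W.A *
        (l ^ (2 * W.N) * c * a.w 0) * (l ^ 0 * c * a.w 2) ^ 2 +
        l ^ (6 * W.N) * MvPolynomial.aeval a.u W.B * (l ^ 0 * c * a.w 2) ^ 3
    have h := a.eqn
    linear_combination l ^ (6 * W.N) * c ^ 3 * h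

lemma same_scale (a : Coord W K) (l c : K) (hl : l ≠ 0) (hc : c ≠ 0) :
    WPt.mk (scale a l c hl hc) = WPt.mk a :=
  (mk_eq_iff.mpr ⟨l, c, hl, hc, fun _ => rfl, fun _ => rfl⟩).symm

lemma isRes_aeval {v : Place k K} {u : Fin 2 → K} {r : Fin 2 → k} (h : ∀ i, IsRes v (u i) (r i))
    (F : MvPolynomial (Fin 2) k) :
    IsRes v (MvPolynomial.aeval u F) (MvPolynomial.aeval r F) := by
  induction F using MvPolynomial.induction_on with
  | C a =>
    rw [MvPolynomial.algHom_C, MvPolynomial.algHom_C]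
    exact isRes_const a
  | add p q hp hq => rw [map_add, map_add]; exact hp.add hq
  | mul_X p i hp =>
    rw [map_mul, map_mul, MvPolynomial.aeval_X, MvPolynomial.aeval_X]
    exact hp.mul (h i)

section value

variable [IsAlgClosed k] [Good k] {v : Place k K}

lemma exists_res_ne (hK : IsFunctionField k K) {x : K} (hx : x ∈ v.ring) (hx0 : x ≠ 0)
    (hx' : x⁻¹ ∈ v.ring) : ∃ c : k, c ≠ 0 ∧ IsRes v x c := by
  obtain ⟨c, hc⟩ := exists_res hK hx
  refine ⟨c, ?_, hc⟩
  rintro rfl
  obtain ⟨d, hd⟩ := exists_res hK hx'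
  have h1 := hc.mul hd
  rw [mul_inv_cancel₀ hx0, zero_mul] at h1
  exact zero_ne_one (h1.unique isRes_one)

lemma val_unique (hK : IsFunctionField k K) {x : WPt W K} {p q : WPt W k}
    (h : IsVal v x p) (h' : IsVal v x q) : p = q := by
  obtain ⟨a, b, rfl, rfl, h1, h2⟩ := h
  obtain ⟨a', b', hx, rfl, h1', h2'⟩ := h'
  obtain ⟨l, c, hl, hc, e1, e2⟩ := mk_eq_iff.mp hx
  replace h1 : ∀ i, IsRes v (a.u i) (b.u i) := h1
  replace h2 : ∀ i, IsRes v (a.w i) (b.w i) := h2
  replace h1' : ∀ i, IsRes v (a'.u i) (b'.u i) := h1'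
  replace h2' : ∀ i, IsRes v (a'.w i) (b'.w i) := h2'
  obtain ⟨j, hj⟩ := Function.ne_iff.mp b.u_ne
  obtain ⟨j', hj'⟩ := Function.ne_iff.mp b'.u_ne
  have f1 := (h1 j).inv_mem hj
  have f1' := (h1' j').inv_mem hj'
  have l1 : l ∈ v.ring := by
    have : l = a'.u j * (a.u j)⁻¹ := by
      rw [e1 j, mul_inv_cancel_right₀ f1.1]
    rw [this]
    exact v.ring.mul_mem _ _ (h1' j).mem f1.2
  have l2 : l⁻¹ ∈ v.ring := by
    have : l⁻¹ = a.u j' * (a'.u j')⁻¹ := by
      have h0 : a.u j' ≠ 0 := by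
        intro h0
        apply f1'.1
        rw [e1 j', h0, mul_zero]
      rw [e1 j']
      field_simp
    rw [this]
    exact v.ring.mul_mem _ _ (h1 j').mem f1'.2
  obtain ⟨l0, hl0, hlr⟩ := exists_res_ne hK l1 hl l2
  obtain ⟨i, hi⟩ := Function.ne_iff.mp b.w_ne
  obtain ⟨i', hi'⟩ := Function.ne_iff.mp b'.w_ne
  have f2 := (h2 i).inv_mem hi
  have f2' := (h2' i').inv_mem hi'
  have c1 : c ∈ v.ring := by
    have : c = a'.w i * (a.w i)⁻¹ * (l⁻¹) ^ wt W.N i := by
      rw [e2 i, inv_pow]
      have := f2.1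
      have := pow_ne_zero (wt W.N i) hl
      field_simp
    rw [this]
    exact v.ring.mul_mem _ _ (v.ring.mul_mem _ _ (h2' i).mem f2.2) (pow_mem l2 _)
  have c2 : c⁻¹ ∈ v.ring := by
    have : c⁻¹ = a.w i' * (a'.w i')⁻¹ * l ^ wt W.N i' := by
      have h0 : a.w i' ≠ 0 := by
        intro h0
        apply f2'.1
        rw [e2 i', h0, mul_zero]
      rw [e2 i']
      have := pow_ne_zero (wt W.N i') hl
      field_simp
    rw [this]
    exact v.ring.mul_mem _ _ (v.ring.mul_mem _ _ (h2 i').mem f2'.2) (pow_mem l1 _)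
  obtain ⟨c0, hc0, hcr⟩ := exists_res_ne hK c1 hc c2
  rw [mk_eq_iff]
  refine ⟨l0, c0, hl0, hc0, fun s => ?_, fun s => ?_⟩
  · have := hlr.mul (h1 s)
    rw [← e1 s] at this
    exact (h1' s).unique this
  · have := ((hlr.pow (wt W.N s)).mul hcr).mul (h2 s)
    rw [← e2 s] at this
    exact (h2' s).unique this

/-- A morphism from a curve to the Weierstrass model has a value at every point. -/
lemma exists_val (hK : IsFunctionField k K) (x : WPt W K) (v : Place k K) : ∃ p, IsVal v x p := by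
  obtain ⟨a, rfl⟩ := exists_mk x
  obtain ⟨j, hj, hj'⟩ := exists_max v.ring a.u a.u_ne
  obtain ⟨i, hi, hi'⟩ := exists_max v.ring
    (fun s => (a.u j)⁻¹ ^ wt W.N s * 1 * a.w s) (scale a _ 1 (inv_ne_zero hj) one_ne_zero).w_ne
  have hi2 : a.w i ≠ 0 := by
    intro h0
    apply hi
    rw [h0, mul_zero]
  have hj3 := pow_ne_zero (wt W.N i) (inv_ne_zero hj)
  set c : K := ((a.u j)⁻¹ ^ wt W.N i * 1 * a.w i)⁻¹ with hc
  have hc0 : c ≠ 0 := inv_ne_zero hi
  set a' := scale a (a.u j)⁻¹ c (inv_ne_zero hj) hc0 with ha'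
  have h1 : ∀ s, a'.u s ∈ v.ring := by
    intro s
    change (a.u j)⁻¹ * a.u s ∈ _
    rw [mul_comm]
    exact hj' s
  have h2 : ∀ s, a'.w s ∈ v.ring := by
    intro s
    have := hi' s
    have e : a'.w s = (a.u j)⁻¹ ^ wt W.N s * 1 * a.w s * c := by
      change (a.u j)⁻¹ ^ wt W.N s * c * a.w s = _
      ring
    rw [e]
    exact this
  choose r hr using fun s => exists_res hK (h1 s)
  choose t ht using fun s => exists_res hK (h2 s)
  have hrj : r j = 1 := by
    have e : a'.u j = 1 := inv_mul_cancel₀ hj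
    have := hr j
    rw [e] at this
    exact this.unique isRes_one
  have hti : t i = 1 := by
    have e : a'.w i = 1 := by
      change (a.u j)⁻¹ ^ wt W.N i * c * a.w i = 1
      rw [hc]
      field_simp
    have := ht i
    rw [e] at this
    exact this.unique isRes_one
  refine ⟨WPt.mk ⟨r, t, ?_, ?_, ?_⟩, a', _, (same_scale a _ c (inv_ne_zero hj) hc0).symm, rfl,
    hr, ht⟩
  · intro h
    rw [h] at hrj
    exact zero_ne_one hrj
  · intro h
    rw [h] at hti
    exact zero_ne_one hti
  · have e1 := ((ht 1).pow 2).mul (ht 2)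
    have e2 := (((ht 0).pow 3).add (((isRes_aeval hr W.A).mul (ht 0)).mul ((ht 2).pow 2))).add
      ((isRes_aeval hr W.B).mul ((ht 2).pow 3))
    rw [← a'.eqn] at e2
    exact e1.unique e2

end value

end

/-- The Weierstrass model with Weierstrass equation `W`. -/
noncomputable abbrev Wei.surface {k : Type u} [Field k] [IsAlgClosed k] [Good k] (W : Wei k) :
    Variety k where
  Pt := WPt W k
  Mor K _ _ := WPt W K
  eval hK x v := (exists_val hK x v).choose

section eval

variable {k : Type u} [Field k] [IsAlgClosed k] [Good k] {W : Wei k}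
  {K : Type u} [Field K] [Algebra k K]

lemma eval_spec (hK : IsFunctionField k K) (x : WPt W K) (v : Place k K) :
    IsVal v x (W.surface.eval hK x v) := (exists_val hK x v).choose_spec

lemma eval_eq (hK : IsFunctionField k K) (v : Place k K) (a : Coord W K) (b : Coord W k)
    (h1 : ∀ i, IsRes v (a.u i) (b.u i)) (h2 : ∀ i, IsRes v (a.w i) (b.w i)) :
    W.surface.eval hK (WPt.mk a) v = WPt.mk b :=
  val_unique hK (eval_spec hK _ v) ⟨a, b, rfl, rfl, h1, h2⟩

/-- Coordinates adapted to a place. -/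
lemma exists_coords (hK : IsFunctionField k K) (v : Place k K) (x : WPt W K) :
    ∃ (a : Coord W K) (b : Coord W k), x = WPt.mk a ∧ W.surface.eval hK x v = WPt.mk b ∧
      (∀ i, IsRes v (a.u i) (b.u i)) ∧ ∀ i, IsRes v (a.w i) (b.w i) :=
  eval_spec hK x v

/-- The value of a constant morphism. -/
lemma exists_const (K : Type u) [Field K] [Algebra k K] (hK : IsFunctionField k K)
    (p : W.surface.Pt) : ∃ c : W.surface.Mor K, ∀ v, W.surface.eval hK c v = p := by
  obtain ⟨b, rfl⟩ := exists_mk p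
  refine ⟨WPt.mk ⟨fun i => algebraMap k K (b.u i), fun i => algebraMap k K (b.w i), ?_, ?_, ?_⟩,
    fun v => eval_eq hK v _ b (fun i => isRes_const _) (fun i => isRes_const _)⟩
  · obtain ⟨j, hj⟩ := Function.ne_iff.mp b.u_ne
    intro h0
    exact hj ((_root_.map_eq_zero _).mp (congrFun h0 j))
  · obtain ⟨j, hj⟩ := Function.ne_iff.mp b.w_ne
    intro h0
    exact hj ((_root_.map_eq_zero _).mp (congrFun h0 j))
  · have e : ∀ F : MvPolynomial (Fin 2) k, MvPolynomial.aeval (fun i => algebraMap k K (b.u i)) F =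
        algebraMap k K (MvPolynomial.aeval b.u F) := by
      intro F
      exact MvPolynomial.aeval_algebraMap_apply K b.u F
    rw [e, e]
    have := congrArg (algebraMap k K) b.eqn
    simpa only [map_mul, map_pow, map_add] using this

end eval

/-! ### Affine points, the involution -/

section points

variable {k : Type u} [Field k] {W : Wei k} {K : Type u} [Field K] [Algebra k K]

/-- The coordinates of the affine point `(u; x : y : 1)`. -/
def affC (u : Fin 2 → K) (x y : K) (hu : u ≠ 0)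
    (h : y ^ 2 = x ^ 3 + MvPolynomial.aeval u W.A * x + MvPolynomial.aeval u W.B) : Coord W K where
  u := u
  w := ![x, y, 1]
  u_ne := hu
  w_ne := fun h => one_ne_zero (congrFun h 2)
  eqn := by
    change y ^ 2 * 1 = x ^ 3 + MvPolynomial.aeval u W.A * x * 1 ^ 2 +
      MvPolynomial.aeval u W.B * 1 ^ 3
    rw [h]; ring

/-- The affine point `(u; x : y : 1)`. -/
def aff (u : Fin 2 → K) (x y : K) (hu : u ≠ 0)
    (h : y ^ 2 = x ^ 3 + MvPolynomial.aeval u W.A * x + MvPolynomial.aeval u W.B) : WPt W K :=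
  WPt.mk (affC u x y hu h)

/-- The coordinates of the point `(u; 0 : 1 : 0)` of the zero section. -/
def zeroC (u : Fin 2 → K) (hu : u ≠ 0) : Coord W K where
  u := u
  w := ![0, 1, 0]
  u_ne := hu
  w_ne := fun h => one_ne_zero (congrFun h 1)
  eqn := by
    change (1 : K) ^ 2 * 0 = 0 ^ 3 + MvPolynomial.aeval u W.A * 0 * 0 ^ 2 +
      MvPolynomial.aeval u W.B * 0 ^ 3
    ring

/-- The point `(u; 0 : 1 : 0)` of the zero section. -/
def zeroPt (u : Fin 2 → K) (hu : u ≠ 0) : WPt W K := WPt.mk (zeroC u hu)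

/-- Every point is an affine point or on the zero section. -/
lemma aff_or_zero (p : WPt W K) : (∃ u hu, p = zeroPt u hu) ∨ ∃ u x y hu h, p = aff u x y hu h := by
  obtain ⟨a, rfl⟩ := exists_mk p
  by_cases hz : a.w 2 = 0
  · left
    have h0 : a.w 0 = 0 := by
      have := a.eqn
      rw [hz] at this
      have h3 : a.w 0 ^ 3 = 0 := by linear_combination -this
      exact (pow_eq_zero_iff (by norm_num)).mp h3
    have h1 : a.w 1 ≠ 0 := by
      intro h1
      apply a.w_ne
      funext i
      fin_cases i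
      · exact h0
      · exact h1
      · exact hz
    refine ⟨a.u, a.u_ne, mk_eq_iff.mpr ⟨1, (a.w 1)⁻¹, one_ne_zero, inv_ne_zero h1,
      fun i => (one_mul _).symm, fun i => ?_⟩⟩
    rw [one_pow, one_mul]
    fin_cases i
    · change (0 : K) = (a.w 1)⁻¹ * a.w 0
      rw [h0, mul_zero]
    · exact (inv_mul_cancel₀ h1).symm
    · change (0 : K) = (a.w 1)⁻¹ * a.w 2
      rw [hz, mul_zero]
  · right
    refine ⟨a.u, (a.w 2)⁻¹ * a.w 0, (a.w 2)⁻¹ * a.w 1, a.u_ne, ?_, mk_eq_iff.mpr
      ⟨1, (a.w 2)⁻¹, one_ne_zero, inv_ne_zero hz, fun i => (one_mul _).symm, fun i => ?_⟩⟩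
    · have := a.eqn
      field_simp
      linear_combination this
    · rw [one_pow, one_mul]
      fin_cases i
      · rfl
      · rfl
      · exact (inv_mul_cancel₀ hz).symm

/-- The involution on coordinates. -/
def negC (a : Coord W K) : Coord W K where
  u := a.u
  w := ![a.w 0, -a.w 1, a.w 2]
  u_ne := a.u_ne
  w_ne := by
    intro h
    apply a.w_ne
    funext i
    fin_cases i
    · exact congrFun h 0
    · exact neg_eq_zero.mp (congrFun h 1)
    · exact congrFun h 2
  eqn := by
    change (-a.w 1) ^ 2 * a.w 2 = a.w 0 ^ 3 + MvPolynomial.aeval a.u W.A * a.w 0 * a.w 2 ^ 2 +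
      MvPolynomial.aeval a.u W.B * a.w 2 ^ 3
    rw [← a.eqn]; ring

/-- The involution `(x : y : z) ↦ (x : - y : z)`. -/
def neg (p : WPt W K) : WPt W K :=
  Quotient.map negC (by
    rintro a b ⟨l, c, hl, hc, h1, h2⟩
    refine ⟨l, c, hl, hc, h1, fun i => ?_⟩
    fin_cases i
    · exact h2 0
    · change -b.w 1 = l ^ wt W.N 1 * c * (-a.w 1)
      rw [h2 1]; ring
    · exact h2 2) p

lemma neg_mk (a : Coord W K) : neg (WPt.mk a) = WPt.mk (negC a) := rfl

lemma neg_aff (u : Fin 2 → K) (x y : K) (hu : u ≠ 0)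
    (h : y ^ 2 = x ^ 3 + MvPolynomial.aeval u W.A * x + MvPolynomial.aeval u W.B) :
    neg (aff u x y hu h) = aff u x (-y) hu (by rw [neg_sq]; exact h) := rfl

lemma neg_zeroPt (u : Fin 2 → K) (hu : u ≠ 0) : neg (zeroPt u hu : WPt W K) = zeroPt u hu := by
  refine mk_eq_iff.mpr ⟨1, -1, one_ne_zero, neg_ne_zero.mpr one_ne_zero,
    fun i => (one_mul _).symm, fun i => ?_⟩
  rw [one_pow, one_mul]
  fin_cases i
  · change (0 : K) = -1 * 0
    ring
  · change (1 : K) = -1 * -1
    ring
  · change (0 : K) = -1 * 0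
    ring

lemma neg_neg' (p : WPt W K) : neg (neg p) = p := by
  obtain ⟨a, rfl⟩ := exists_mk p
  rw [neg_mk, neg_mk, mk_eq_iff]
  refine ⟨1, 1, one_ne_zero, one_ne_zero, fun i => (one_mul _).symm, fun i => ?_⟩
  rw [one_pow, one_mul, one_mul]
  fin_cases i
  · rfl
  · exact (neg_neg _).symm
  · rfl

variable [IsAlgClosed k] [Good k]

lemma induced_neg : Induced W.surface W.surface neg := by
  intro K _ _ hK c
  refine ⟨neg c, fun v => ?_⟩
  obtain ⟨a, b, rfl, h2, h3, h4⟩ := exists_coords hK v c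
  rw [h2, neg_mk, neg_mk]
  apply eval_eq hK v (negC a) (negC b) h3
  intro i
  fin_cases i
  · exact h4 0
  · exact (h4 1).neg
  · exact h4 2

/-- The value of an affine point with regular coordinates. -/
lemma eval_aff (hK : IsFunctionField k K) (v : Place k K) {u : Fin 2 → K} {x y : K} {hu : u ≠ 0}
    {h : y ^ 2 = x ^ 3 + MvPolynomial.aeval u W.A * x + MvPolynomial.aeval u W.B}
    {r : Fin 2 → k} {c d : k} (hr : r ≠ 0)
    (h' : d ^ 2 = c ^ 3 + MvPolynomial.aeval r W.A * c + MvPolynomial.aeval r W.B)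
    (h1 : ∀ i, IsRes v (u i) (r i)) (h2 : IsRes v x c) (h3 : IsRes v y d) :
    W.surface.eval hK (aff u x y hu h) v = aff r c d hr h' := by
  apply eval_eq hK v _ _ h1
  intro i
  fin_cases i
  · exact h2
  · exact h3
  · exact isRes_one

/-- The value of any point whose first coordinates are regular, not both zero, at the place. -/
lemma eval_base (hK : IsFunctionField k K) (v : Place k K) (a : Coord W K)
    {r : Fin 2 → k} (hr : r ≠ 0) (h1 : ∀ i, IsRes v (a.u i) (r i)) :
    ∃ b : Coord W k, b.u = r ∧ W.surface.eval hK (WPt.mk a) v = WPt.mk b := by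
  obtain ⟨a', b, h2, h3, h4, h5⟩ := exists_coords hK v (WPt.mk a)
  obtain ⟨l, c, hl, hc, e1, e2⟩ := mk_eq_iff.mp h2
  obtain ⟨j, hj⟩ := Function.ne_iff.mp hr
  obtain ⟨j', hj'⟩ := Function.ne_iff.mp b.u_ne
  have f1 := (h1 j).inv_mem hj
  have f1' := (h4 j').inv_mem hj'
  have l1 : l ∈ v.ring := by
    have : l = a'.u j * (a.u j)⁻¹ := by
      rw [e1 j, mul_inv_cancel_right₀ f1.1]
    rw [this]
    exact v.ring.mul_mem _ _ (h4 j).mem f1.2
  have l2 : l⁻¹ ∈ v.ring := by
    have : l⁻¹ = a.u j' * (a'.u j')⁻¹ := by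
      have h0 : a.u j' ≠ 0 := by
        intro h0
        apply f1'.1
        rw [e1 j', h0, mul_zero]
      rw [e1 j']
      field_simp
    rw [this]
    exact v.ring.mul_mem _ _ (h1 j').mem f1'.2
  obtain ⟨l0, hl0, hlr⟩ := exists_res_ne hK l1 hl l2
  refine ⟨scale b l0⁻¹ 1 (inv_ne_zero hl0) one_ne_zero, ?_, ?_⟩
  · funext s
    change l0⁻¹ * b.u s = r s
    have := hlr.mul (h1 s)
    rw [← e1 s] at this
    rw [(h4 s).unique this, inv_mul_cancel_left₀ hl0]
  · rw [h3, same_scale]

end points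

/-! ### Affine points as a total function -/

section apt

variable {k : Type u} [Field k] {W : Wei k} {K : Type u} [Field K] [Algebra k K]

open Classical in
/-- The point `(u; x : y : 1)`, if these are coordinates of a point. -/
noncomputable def apt (W : Wei k) {K : Type u} [Field K] [Algebra k K] (u : Fin 2 → K) (x y : K) :
    WPt W K :=
  if h : u ≠ 0 ∧ y ^ 2 = x ^ 3 + MvPolynomial.aeval u W.A * x + MvPolynomial.aeval u W.B then
    aff u x y h.1 h.2 else zeroPt (fun _ => 1) (fun h => one_ne_zero (congrFun h 0))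

lemma apt_eq {u : Fin 2 → K} {x y : K} (hu : u ≠ 0)
    (h : y ^ 2 = x ^ 3 + MvPolynomial.aeval u W.A * x + MvPolynomial.aeval u W.B) :
    apt W u x y = aff u x y hu h := dif_pos ⟨hu, h⟩

lemma neg_apt {u : Fin 2 → K} {x y : K} (hu : u ≠ 0)
    (h : y ^ 2 = x ^ 3 + MvPolynomial.aeval u W.A * x + MvPolynomial.aeval u W.B) :
    neg (apt W u x y) = apt W u x (-y) := by
  rw [apt_eq hu h, neg_aff, apt_eq hu (by rw [neg_sq]; exact h)]

/-- Points of the twisted constant curve. -/
lemma tw_eqn {u : Fin 2 → K} {a b v x y : K} (hA : MvPolynomial.aeval u W.A = a * v ^ 4)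
    (hB : MvPolynomial.aeval u W.B = b * v ^ 6) (h : y ^ 2 = x ^ 3 + a * x + b) :
    (y * v ^ 3) ^ 2 = (x * v ^ 2) ^ 3 + MvPolynomial.aeval u W.A * (x * v ^ 2) +
      MvPolynomial.aeval u W.B := by
  rw [hA, hB]
  linear_combination v ^ 6 * h

variable [IsAlgClosed k] [Good k]

/-- The value of an affine point with regular coordinates. -/
lemma eval_apt (hK : IsFunctionField k K) (v : Place k K) {u : Fin 2 → K} {x y : K}
    (h : y ^ 2 = x ^ 3 + MvPolynomial.aeval u W.A * x + MvPolynomial.aeval u W.B)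
    {r : Fin 2 → k} {c d : k} (hr : r ≠ 0)
    (h1 : ∀ i, IsRes v (u i) (r i)) (h2 : IsRes v x c) (h3 : IsRes v y d) :
    W.surface.eval hK (apt W u x y) v = apt W r c d := by
  have hu : u ≠ 0 := by
    obtain ⟨j, hj⟩ := Function.ne_iff.mp hr
    intro h0
    have := h1 j
    rw [h0] at this
    exact hj (this.unique isRes_zero)
  have h' : d ^ 2 = c ^ 3 + MvPolynomial.aeval r W.A * c + MvPolynomial.aeval r W.B := by
    have e1 := h3.pow 2
    have e2 := ((h2.pow 3).add ((isRes_aeval h1 W.A).mul h2)).add (isRes_aeval h1 W.B)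
    rw [← h] at e2
    exact e1.unique e2
  rw [apt_eq hu h, apt_eq hr h']
  exact eval_aff hK v hr h' h1 h2 h3

end apt

end Pool.Agent.Helper51.EW

end CX
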