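import Mathlib
import Pool.Agent.Helper40.CX.H51EW.Defs
import Pool.Agent.Helper40.CX.H94EW.Even
import Pool.Agent.Helper40.CX.H83VF.Misc
import Pool.Agent.Helper40.CX.H83VH.Decomp
import Pool.Agent.Helper40.CX.Good

namespace CX

set_option linter.unusedSectionVars false

namespace Pool.Agent.Helper51.EW

open VC VF Function

universe u

variable {k : Type u} [Field k] {W : Wei k}

variable [IsAlgClosed k] [Good k]

/-- The functions considered: they vanish on the cycles rationally equivalent to zero, they are odd
in each variable and alternating. -/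
structure Odd (W : Wei k) (n : ℕ) (Ψ : (W.surface.pow n).Pt → ℂ) : Prop where
  kills : Kills (W.surface.pow n) Ψ
  odd : ∀ p i, Ψ (update p i (neg (p i))) = -Ψ p
  alt : ∀ i j, i ≠ j → ∀ p : (W.surface.pow n).Pt, Ψ (fun l => p (Equiv.swap i j l)) = -Ψ p

variable {n : ℕ} {Ψ : (W.surface.pow n).Pt → ℂ}

lemma Odd.one (h : Odd W n Ψ) (p : (W.surface.pow n).Pt) (i : Fin n) :
    Kills W.surface (fun x => Ψ (update p i x)) ∧
      ∀ x, Ψ (update p i (neg x)) = -Ψ (update p i x) := by
  refine ⟨h.kills.comp (induced_update W.surface p (fun K _ _ hK q => exists_const K hK q) i),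
    fun x => ?_⟩
  have := h.odd (update p i x) i
  rwa [update_self, update_idem] at this


/-- The action of `ℤ / 2`. -/
noncomputable def negAct (W : Wei k) : VH.Act W.surface 2 :=
  VH.Act.ofIterate (X := W.surface) neg induced_neg (fun p => neg_neg' p)

end Pool.Agent.Helper51.EW

end CX
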