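import Mathlib
import Pool.Agent.Helper40.CX.H51EW.Odd

namespace CX

set_option linter.unusedSectionVars false

namespace Pool.Agent.Helper51.EW

open VC VF Function

universe u

variable {k : Type u} [Field k] [IsAlgClosed k] [Good k] {W : Wei k} {n : ℕ} {Ψ : (W.surface.pow n).Pt → ℂ}

lemma Odd.zero_of_neg (h : Odd W n Ψ) {p : (W.surface.pow n).Pt} {i : Fin n}
    (hi : neg (p i) = p i) : Ψ p = 0 := by
  have h1 := h.odd p i
  rw [hi, update_eq_self] at h1
  exact self_eq_neg.mp h1

lemma Odd.zero_of_sing (h : Odd W n Ψ) {p : (W.surface.pow n).Pt} {i : Fin n} {c : Coord W k}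
    (hi : p i = WPt.mk c) (hA : MvPolynomial.aeval c.u W.A = 0)
    (hB : MvPolynomial.aeval c.u W.B = 0) : Ψ p = 0 := by
  obtain ⟨h1, h2⟩ := h.one p i
  have := Pool.Agent.Helper94.EW.odd_singular h1 h2 c hA hB
  rwa [← hi, update_eq_self] at this

end Pool.Agent.Helper51.EW

end CX
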