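import Mathlib
import Pool.Agent.Helper40.CX.H51EW.Data
import Pool.Agent.Helper40.CX.H51EW.Odd2
import Pool.Agent.Helper40.CX.H83EW.Lines2
import Pool.Agent.Helper40.CX.H83VH.Decomp
import Pool.Agent.Helper40.CX.H94EW.Even
import Pool.Agent.Helper40.CX.Good2

namespace CX

/-!
# Symmetries of odd alternating functions on an isotrivial Weierstrass model
-/

set_option linter.unusedSectionVars false

namespace Pool.Agent.Helper51.EW

open VC VF Function
open Pool.Agent.Helper83.EW (lines)
open Pool.Agent.Helper94.EW (even_const odd_singular)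

universe u

section group

variable {ι M α : Type*} [Fintype ι] [DecidableEq ι] [CommGroup M]

/-- A function of a family of group elements in which elements may be moved from one index to
another depends only on the product of the family. -/
lemma eq_of_prod (F : (ι → M) → α)
    (h : ∀ (g : ι → M) (i j : ι) (c : M),
      F (g * (Pi.mulSingle i c : ι → M)) = F (g * (Pi.mulSingle j c : ι → M)))
    (i0 : ι) (g : ι → M) :
    F g = F (Pi.mulSingle i0 (∏ i, g i)) := by
  have key : ∀ S : Finset ι, ∀ h0 : ι → M, F (h0 * ∏ i ∈ S, Pi.mulSingle i (g i)) =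
      F (h0 * Pi.mulSingle i0 (∏ i ∈ S, g i)) := by
    intro S
    induction S using Finset.induction_on with
    | empty => intro h0; simp
    | insert j S hj ih =>
      intro h0
      rw [Finset.prod_insert hj, Finset.prod_insert hj, ← mul_assoc, ih]
      have e1 : h0 * (Pi.mulSingle j (g j) : ι → M) * (Pi.mulSingle i0 (∏ i ∈ S, g i) : ι → M) =
          h0 * (Pi.mulSingle i0 (∏ i ∈ S, g i) : ι → M) * (Pi.mulSingle j (g j) : ι → M) := by
        rw [mul_assoc, mul_assoc, mul_comm (Pi.mulSingle j (g j) : ι → M)]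
      rw [e1, h _ j i0, mul_assoc, ← Pi.mulSingle_mul, mul_comm (∏ i ∈ S, g i)]
  have := key Finset.univ 1
  rwa [one_mul, one_mul, Finset.univ_prod_mulSingle] at this

end group

variable {k : Type u} [Field k] {W : Wei k}

/-- The point `e0 + T e1` of the projective line. -/
def bp (D : Core W) {K : Type u} [Field K] [Algebra k K] (T : K) : Fin 2 → K :=
  fun i => algebraMap k K (D.e0 i) + T * algebraMap k K (D.e1 i)

section basic

variable (D : Core W)

lemma det_ne : D.e0 0 * D.e1 1 - D.e0 1 * D.e1 0 ≠ 0 := by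
  intro h
  obtain ⟨s, t, h1⟩ := D.span ![1, 0]
  obtain ⟨s', t', h2⟩ := D.span ![0, 1]
  have a0 : (1 : k) = s * D.e0 0 + t * D.e1 0 := h1 0
  have a1 : (0 : k) = s * D.e0 1 + t * D.e1 1 := h1 1
  have b0 : (0 : k) = s' * D.e0 0 + t' * D.e1 0 := h2 0
  have b1 : (1 : k) = s' * D.e0 1 + t' * D.e1 1 := h2 1
  have : (1 : k) = (s * t' - t * s') * (D.e0 0 * D.e1 1 - D.e0 1 * D.e1 0) := by
    linear_combination (1 : k) * b1 * 0 + (s' * D.e0 1 + t' * D.e1 1) * a0 -
      (s' * D.e0 0 + t' * D.e1 0) * a1 + b1
  rw [h, mul_zero] at this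
  exact one_ne_zero this

lemma bp_ne (T : k) : bp D T ≠ 0 := by
  intro h
  have h0 : D.e0 0 + T * D.e1 0 = 0 := congrFun h 0
  have h1 : D.e0 1 + T * D.e1 1 = 0 := congrFun h 1
  apply det_ne D
  linear_combination D.e1 1 * h0 - D.e1 0 * h1

lemma bpA {T v : k} (h : v ^ D.m = D.f.eval T) :
    MvPolynomial.aeval (bp D T) W.A = D.a * v ^ 4 :=
  D.A0 k T v (by rw [h, Polynomial.coe_aeval_eq_eval])

lemma bpB {T v : k} (h : v ^ D.m = D.f.eval T) :
    MvPolynomial.aeval (bp D T) W.B = D.b * v ^ 6 :=
  D.B0 k T v (by rw [h, Polynomial.coe_aeval_eq_eval])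

/-- The twisted point. -/
noncomputable def tp (T v x y : k) : WPt W k := apt W (bp D T) (x * v ^ 2) (y * v ^ 3)

lemma tp_twist (T v x y g : k) : tp D T (g * v) x y = tp D T v (g ^ 2 * x) (g ^ 3 * y) := by
  unfold tp
  congr 1 <;> ring

lemma curve_twist {x y g : k} (h : y ^ 2 = x ^ 3 + D.a * x + D.b) (hg : g ^ D.m = 1) :
    (g ^ 3 * y) ^ 2 = (g ^ 2 * x) ^ 3 + D.a * (g ^ 2 * x) + D.b := by
  have h4 : D.a * g ^ 4 = D.a := by
    rcases D.h4 with h4 | h4
    · rw [h4, zero_mul]
    · rw [← h4, pow_mul, hg, one_pow, mul_one]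
  have h6 : D.b * g ^ 6 = D.b := by
    rcases D.h6 with h6 | h6
    · rw [h6, zero_mul]
    · rw [← h6, pow_mul, hg, one_pow, mul_one]
  linear_combination g ^ 6 * h + g ^ 2 * x * h4 + h6

lemma neg_tp {T v x y : k} (hv : v ^ D.m = D.f.eval T) (h : y ^ 2 = x ^ 3 + D.a * x + D.b) :
    neg (tp D T v x y) = tp D T v x (-y) := by
  unfold tp
  rw [neg_apt (bp_ne D T) (tw_eqn (bpA D hv) (bpB D hv) h), neg_mul]

end basic

variable [IsAlgClosed k] [Good k]

variable {n : ℕ} {Ψ : (W.surface.pow n).Pt → ℂ}

/-- Valid parameters. -/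
structure Valid (D : Core W) (T v x y : Fin n → k) : Prop where
  root : ∀ i, v i ^ D.m = D.f.eval (T i)
  curve : ∀ i, y i ^ 2 = x i ^ 3 + D.a * x i + D.b

/-- The function in terms of the parameters. -/
noncomputable def G (D : Core W) (Ψ : (W.surface.pow n).Pt → ℂ) (T v x y : Fin n → k) : ℂ :=
  Ψ (fun i => tp D (T i) (v i) (x i) (y i))

variable {D : Core W} {T v x y : Fin n → k}

lemma G_lines (h : Odd W n Ψ) (hV : Valid D T v x y) {i j : Fin n} (hij : i ≠ j) :
    G D Ψ T v (x ∘ Equiv.swap i j) (y ∘ Equiv.swap i j) = -G D Ψ T v x y := by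
  set p : (W.surface.pow n).Pt := fun l => tp D (T l) (v l) (x l) (y l) with hp
  have h1 := lines (W := W) (φ := fun z => Ψ (update (update p i z.1) j z.2))
    (h.kills.comp (VH.induced_two (fun K _ _ hK q => exists_const K hK q) p i j))
    (fun a b => by
      have := (h.one (update p j b) i).2 a
      rw [update_comm hij.symm, update_comm hij.symm] at this
      exact this)
    (fun a b => (h.one (update p i a) j).2 b) D.hE (bp_ne D (T i)) (bp_ne D (T j))
    (bpA D (hV.root i)) (bpB D (hV.root i)) (bpA D (hV.root j)) (bpB D (hV.root j))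
    (hV.curve i) (hV.curve j)
  beta_reduce at h1
  have e1 : update (update p i (apt W (bp D (T i)) (x i * v i ^ 2) (y i * v i ^ 3))) j
      (apt W (bp D (T j)) (x j * v j ^ 2) (y j * v j ^ 3)) = p := by
    have : update p i (apt W (bp D (T i)) (x i * v i ^ 2) (y i * v i ^ 3)) = p :=
      update_eq_self i p
    rw [this]
    exact update_eq_self j p
  have e2 : update (update p i (apt W (bp D (T i)) (x j * v i ^ 2) (y j * v i ^ 3))) j
      (apt W (bp D (T j)) (x i * v j ^ 2) (y i * v j ^ 3)) =
      fun l => tp D (T l) (v l) ((x ∘ Equiv.swap i j) l) ((y ∘ Equiv.swap i j) l) := by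
    funext l
    by_cases hj : l = j
    · subst hj
      rw [update_self]
      simp only [comp_apply, Equiv.swap_apply_right]
      rfl
    · rw [update_of_ne hj]
      by_cases hi : l = i
      · subst hi
        rw [update_self]
        simp only [comp_apply, Equiv.swap_apply_left]
        rfl
      · rw [update_of_ne hi]
        simp only [comp_apply, Equiv.swap_apply_of_ne_of_ne hi hj]
        rfl
  rw [e1, e2] at h1
  unfold G
  linear_combination h1

lemma G_alt (h : Odd W n Ψ) {i j : Fin n} (hij : i ≠ j) :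
    G D Ψ (T ∘ Equiv.swap i j) (v ∘ Equiv.swap i j) (x ∘ Equiv.swap i j) (y ∘ Equiv.swap i j) =
      -G D Ψ T v x y :=
  h.alt i j hij (fun l => tp D (T l) (v l) (x l) (y l))

lemma Valid.comp (hV : Valid D T v x y) (σ τ : Equiv.Perm (Fin n)) :
    Valid D (T ∘ σ) (v ∘ σ) (x ∘ τ) (y ∘ τ) :=
  ⟨fun i => hV.root (σ i), fun i => hV.curve (τ i)⟩

lemma G_sym (h : Odd W n Ψ) (hV : Valid D T v x y) (σ : Equiv.Perm (Fin n)) :
    G D Ψ (T ∘ σ) (v ∘ σ) x y = G D Ψ T v x y := by
  have hswap : ∀ T v : Fin n → k, Valid D T v x y → ∀ i j : Fin n, i ≠ j →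
      G D Ψ (T ∘ Equiv.swap i j) (v ∘ Equiv.swap i j) x y = G D Ψ T v x y := by
    intro T v hV i j hij
    have h1 := G_alt (T := T) (v := v) (x := x) (y := y) (D := D) h hij
    have hV' : Valid D (T ∘ Equiv.swap i j) (v ∘ Equiv.swap i j) x y :=
      ⟨fun l => hV.root _, hV.curve⟩
    have h2 := G_lines h hV' hij
    rw [h1] at h2
    exact (neg_inj.mp h2).symm
  have key : ∀ σ : Equiv.Perm (Fin n), ∀ T v : Fin n → k, Valid D T v x y →
      G D Ψ (T ∘ σ) (v ∘ σ) x y = G D Ψ T v x y := by
    intro σ
    induction σ using Equiv.Perm.swap_induction_on with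
    | one => intro T v _; rfl
    | swap_mul f i j hij ih =>
      intro T v hV
      have h1 := ih (T ∘ Equiv.swap i j) (v ∘ Equiv.swap i j)
        ⟨fun l => hV.root _, fun l => hV.curve l⟩
      rw [← hswap T v hV i j hij, ← h1]
      rfl
  exact key σ T v hV

/-- Moving a root of unity from one variable to another. -/
lemma G_move (h : Odd W n Ψ) (hV : Valid D T v x y) {g : k} (hg : g ^ D.m = 1) {i j : Fin n} :
    G D Ψ T (update v i (g * v i)) x y = G D Ψ T (update v j (g * v j)) x y := by
  by_cases hij : i = j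
  · rw [hij]
  have e1 : G D Ψ T (update v i (g * v i)) x y =
      G D Ψ T v (update x i (g ^ 2 * x i)) (update y i (g ^ 3 * y i)) := by
    unfold G
    congr 1
    funext l
    by_cases hl : l = i
    · subst hl
      simp only [update_self]
      exact tp_twist D _ _ _ _ _
    · simp only [update_of_ne hl]
  have hV1 : Valid D T v (update x i (g ^ 2 * x i)) (update y i (g ^ 3 * y i)) := by
    refine ⟨hV.root, fun l => ?_⟩
    by_cases hl : l = i
    · subst hl
      simp only [update_self]
      exact curve_twist D (hV.curve _) hg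
    · simp only [update_of_ne hl]
      exact hV.curve l
  have hV2 : Valid D T (update v j (g * v j)) x y := by
    refine ⟨fun l => ?_, hV.curve⟩
    by_cases hl : l = j
    · subst hl
      simp only [update_self, mul_pow, hg, one_mul]
      exact hV.root l
    · simp only [update_of_ne hl]
      exact hV.root l
  have e2 := G_lines h hV1 hij
  have e3 := G_lines h hV2 hij
  have e4 : G D Ψ T v ((update x i (g ^ 2 * x i)) ∘ Equiv.swap i j)
      ((update y i (g ^ 3 * y i)) ∘ Equiv.swap i j) =
      G D Ψ T (update v j (g * v j)) (x ∘ Equiv.swap i j) (y ∘ Equiv.swap i j) := by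
    unfold G
    congr 1
    funext l
    by_cases hl : l = j
    · subst hl
      simp only [comp_apply, Equiv.swap_apply_right, update_self]
      exact (tp_twist D _ _ _ _ _).symm
    · have : Equiv.swap i j l ≠ i := by
        intro h0
        apply hl
        have := congrArg (Equiv.swap i j) h0
        rwa [Equiv.swap_apply_self, Equiv.swap_apply_left] at this
      simp only [comp_apply, update_of_ne hl, update_of_ne this]
  rw [e1, ← neg_inj, ← e2, e4, e3]

/-- The function depends only on the product of the roots `v i`. -/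
lemma G_prod (h : Odd W n Ψ) (hV : Valid D T v x y) {g : Fin n → k}
    (hg : ∀ i, g i ^ D.m = 1) (hp : ∏ i, g i = 1) :
    G D Ψ T (fun i => g i * v i) x y = G D Ψ T v x y := by
  classical
  have hm0 : D.m ≠ 0 := D.hm0
  rcases n with _ | n
  · unfold G
    congr 1
    funext i
    exact i.elim0
  let M := rootsOfUnity D.m k
  let F : (Fin (n + 1) → M) → ℂ := fun c => G D Ψ T (fun i => ((c i : kˣ) : k) * v i) x y
  have hpow : ∀ c : M, ((c : kˣ) : k) ^ D.m = 1 := fun c =>
    (mem_rootsOfUnity' D.m (c : kˣ)).mp c.2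
  have hF : ∀ (c : Fin (n + 1) → M) (i j : Fin (n + 1)) (e : M),
      F (c * (Pi.mulSingle i e : Fin (n + 1) → M)) =
        F (c * (Pi.mulSingle j e : Fin (n + 1) → M)) := by
    intro c i j e
    have hV' : Valid D T (fun i => ((c i : kˣ) : k) * v i) x y :=
      ⟨fun l => by rw [mul_pow, hpow, one_mul]; exact hV.root l, hV.curve⟩
    have h1 := G_move h hV' (hpow e) (i := i) (j := j)
    have h2 : ∀ i, (fun l => (((c * (Pi.mulSingle i e : Fin (n + 1) → M)) l : kˣ) : k) * v l) =
        update (fun i => ((c i : kˣ) : k) * v i) i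
          (((e : kˣ) : k) * (((c i : kˣ) : k) * v i)) := by
      intro i
      funext l
      by_cases hl : l = i
      · subst hl
        simp only [Pi.mul_apply, Pi.mulSingle_eq_same, update_self]
        push_cast
        ring
      · simp only [Pi.mul_apply, Pi.mulSingle_eq_of_ne hl, update_of_ne hl, mul_one]
    simp only [F]
    rw [h2 i, h2 j]
    exact h1
  have hg0 : ∀ i, g i ≠ 0 := by
    intro i h0
    have := hg i
    rw [h0, zero_pow hm0] at this
    exact zero_ne_one this
  let c : Fin (n + 1) → M := fun i => ⟨Units.mk0 (g i) (hg0 i),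
    (mem_rootsOfUnity' D.m _).mpr (by rw [Units.val_mk0]; exact hg i)⟩
  have hc : ∏ i, c i = 1 := by
    apply Subtype.ext
    apply Units.ext
    rw [Subgroup.val_finsetProd, Units.coe_prod]
    simpa [c] using hp
  have h1 := eq_of_prod F hF 0 c
  have h2 := eq_of_prod F hF 0 1
  rw [hc] at h1
  simp only [Pi.one_apply, Finset.prod_const_one] at h2
  rw [← h2] at h1
  have e1 : F c = G D Ψ T (fun i => g i * v i) x y := rfl
  have e2 : F 1 = G D Ψ T v x y := by
    simp only [F, Pi.one_apply]
    congr 1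
    funext i
    simp
  rw [← e1, ← e2, h1]

end Pool.Agent.Helper51.EW

end CX
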