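import Mathlib
import Pool.Agent.Helper40.CX.H51EW.Path
import Pool.Agent.Helper40.CX.Good2

namespace CX

/-!
# The vanishing of odd alternating functions and the assembly
-/

set_option linter.unusedSectionVars false

namespace Pool.Agent.Helper51.EW

open VC VF Function
open Pool.Agent.Helper94.EW (even_const)

universe u

variable {k : Type u} [Field k] [IsAlgClosed k] [Good k] {W : Wei k}

/-- Classification of the points. -/
lemma good_or (D : Core W) (p : WPt W k) :
    (∃ T v x y : k, D.f.eval T ≠ 0 ∧ v ^ D.m = D.f.eval T ∧ y ≠ 0 ∧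
      y ^ 2 = x ^ 3 + D.a * x + D.b ∧ p = tp D T v x y) ∨ neg p = p ∨
      ∃ c : Coord W k, p = WPt.mk c ∧ MvPolynomial.aeval c.u W.A = 0 ∧
        MvPolynomial.aeval c.u W.B = 0 := by
  rcases aff_or_zero p with ⟨u, hu, rfl⟩ | ⟨u, x, y, hu, h, rfl⟩
  · exact Or.inr (Or.inl (neg_zeroPt u hu))
  obtain ⟨s, t, hst⟩ := D.span u
  by_cases hs : s = 0
  · right; right
    have hu' : u = fun i => t * D.e1 i := by
      funext i
      rw [hst i, hs, zero_mul, zero_add]
    refine ⟨affC u x y hu h, rfl, ?_, ?_⟩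
    · change MvPolynomial.aeval u W.A = 0
      rw [hu', aeval_smul W.hA, D.A1, mul_zero]
    · change MvPolynomial.aeval u W.B = 0
      rw [hu', aeval_smul W.hB, D.B1, mul_zero]
  set T : k := t / s with hT
  have hsT : s * T = t := by rw [hT]; field_simp
  have hu' : bp D T = fun i => s⁻¹ * u i := by
    funext i
    change D.e0 i + T * D.e1 i = _
    rw [hst i, ← hsT]
    field_simp
  have hs' := inv_ne_zero hs
  set x' : k := s⁻¹ ^ (2 * W.N) * x with hx'
  set y' : k := s⁻¹ ^ (3 * W.N) * y with hy'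
  have heq : y' ^ 2 = x' ^ 3 + MvPolynomial.aeval (bp D T) W.A * x' +
      MvPolynomial.aeval (bp D T) W.B := by
    rw [hu', aeval_smul W.hA, aeval_smul W.hB, hx', hy']
    linear_combination s⁻¹ ^ (6 * W.N) * h
  have hp : aff u x y hu h = apt W (bp D T) x' y' := by
    rw [apt_eq (bp_ne D T) heq]
    refine mk_eq_iff.mpr ⟨s⁻¹, 1, hs', one_ne_zero, fun i => congrFun hu' i, fun i => ?_⟩
    fin_cases i
    · change x' = s⁻¹ ^ (2 * W.N) * 1 * x
      rw [mul_one]
    · change y' = s⁻¹ ^ (3 * W.N) * 1 * y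
      rw [mul_one]
    · change (1 : k) = s⁻¹ ^ 0 * 1 * 1
      simp
  by_cases hf : D.f.eval T = 0
  · right; right
    have h0 : (0 : k) ^ D.m = D.f.eval T := by rw [zero_pow D.hm0, hf]
    refine ⟨affC (bp D T) x' y' (bp_ne D T) heq, ?_, ?_, ?_⟩
    · rw [hp, apt_eq (bp_ne D T) heq]
      rfl
    · change MvPolynomial.aeval (bp D T) W.A = 0
      rw [bpA D h0]
      simp
    · change MvPolynomial.aeval (bp D T) W.B = 0
      rw [bpB D h0]
      simp
  obtain ⟨v, hv⟩ := IsAlgClosed.exists_pow_nat_eq (D.f.eval T) (Nat.pos_of_ne_zero D.hm0)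
  have hv0 : v ≠ 0 := by
    rintro rfl
    rw [zero_pow D.hm0] at hv
    exact hf hv.symm
  by_cases hy : y' = 0
  · right; left
    rw [hp, neg_apt (bp_ne D T) heq, hy, neg_zero]
  · left
    refine ⟨T, v, x' / v ^ 2, y' / v ^ 3, hf, hv, div_ne_zero hy (pow_ne_zero 3 hv0), ?_, ?_⟩
    · rw [bpA D hv, bpB D hv] at heq
      field_simp
      linear_combination heq
    · rw [hp]
      unfold tp
      rw [div_mul_cancel₀ _ (pow_ne_zero 2 hv0), div_mul_cancel₀ _ (pow_ne_zero 3 hv0)]

theorem core (D : Core W) (hN : 0 < W.N) {Ψ : (W.surface.pow W.N).Pt → ℂ} (h : Odd W W.N Ψ)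
    (p : (W.surface.pow W.N).Pt) : Ψ p = 0 := by
  by_cases hg : ∀ i, ∃ T v x y : k, D.f.eval T ≠ 0 ∧ v ^ D.m = D.f.eval T ∧ y ≠ 0 ∧
      y ^ 2 = x ^ 3 + D.a * x + D.b ∧ p i = tp D T v x y
  · choose T v x y h1 h2 h3 h4 h5 using hg
    have hp : p = fun i => tp D (T i) (v i) (x i) (y i) := funext h5
    rw [hp]
    exact core_generic hN h ⟨h2, h4⟩ h1 h3
  · push Not at hg
    obtain ⟨i, hi⟩ := hg
    rcases good_or D (p i) with ⟨T, v, x, y, h1, h2, h3, h4, h5⟩ | h1 | ⟨c, h1, h2, h3⟩
    · exact absurd h5 (hi T v x y h1 h2 h3 h4)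
    · exact h.zero_of_neg h1
    · exact h.zero_of_sing h1 h2 h3

/-- Fixing the last variables. -/
def extend {X : Type u} (N : ℕ) {n : ℕ} (p : Fin n → X) (q : Fin N → X) : Fin n → X :=
  fun i => if h : i.val < N then q ⟨i.val, h⟩ else p i

lemma Odd.restrict {N n : ℕ} (hn : N ≤ n) {Ψ : (W.surface.pow n).Pt → ℂ} (h : Odd W n Ψ)
    (p : (W.surface.pow n).Pt) :
    Odd W N (fun q => Ψ (extend N p q)) := by
  refine ⟨?_, ?_, ?_⟩
  · apply h.kills.comp
    intro K _ _ hK c
    choose d hd using fun l => exists_const (W := W) K hK (p l)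
    refine ⟨extend N d c, fun v => ?_⟩
    funext i
    change W.surface.eval hK (extend N d c i) v = extend N p _ i
    unfold extend
    by_cases hi : i.val < N
    · rw [dif_pos hi, dif_pos hi]
    · rw [dif_neg hi, dif_neg hi]
      exact hd i v
  · intro q i
    have h1 := h.odd (extend N p q) (Fin.castLE hn i)
    have h2 : extend N p q (Fin.castLE hn i) = q i := by
      unfold extend
      rw [dif_pos (by exact i.2)]
      rfl
    rw [h2] at h1
    rw [← h1]
    congr 1
    funext l
    by_cases hl : l = Fin.castLE hn i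
    · subst hl
      rw [update_self]
      unfold extend
      rw [dif_pos (by exact i.2)]
      have : (⟨(Fin.castLE hn i).val, i.2⟩ : Fin N) = i := rfl
      rw [this, update_self]
    · rw [update_of_ne hl]
      unfold extend
      by_cases hlN : l.val < N
      · rw [dif_pos hlN, dif_pos hlN, update_of_ne]
        intro h3
        apply hl
        apply Fin.ext
        rw [← h3]
        rfl
      · rw [dif_neg hlN, dif_neg hlN]
  · intro i j hij q
    have hij' : Fin.castLE hn i ≠ Fin.castLE hn j := fun h3 => hij (Fin.castLE_injective hn h3)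
    have h1 := h.alt _ _ hij' (extend N p q)
    rw [← h1]
    congr 1
    funext l
    have key : ∀ m : Fin N, extend N p q (Fin.castLE hn m) = q m := by
      intro m
      unfold extend
      rw [dif_pos (by exact m.2)]
      rfl
    by_cases hlN : l.val < N
    · have h2' : ∀ m : Fin N, Equiv.swap (Fin.castLE hn i) (Fin.castLE hn j) (Fin.castLE hn m) =
          Fin.castLE hn (Equiv.swap i j m) := by
        intro m
        by_cases h3 : m = i
        · rw [h3, Equiv.swap_apply_left, Equiv.swap_apply_left]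
        by_cases h4 : m = j
        · rw [h4, Equiv.swap_apply_right, Equiv.swap_apply_right]
        rw [Equiv.swap_apply_of_ne_of_ne h3 h4, Equiv.swap_apply_of_ne_of_ne]
        · exact fun h5 => h3 (Fin.castLE_injective hn h5)
        · exact fun h5 => h4 (Fin.castLE_injective hn h5)
      have h2 : Equiv.swap (Fin.castLE hn i) (Fin.castLE hn j) l =
          Fin.castLE hn (Equiv.swap i j ⟨l.val, hlN⟩) := h2' ⟨l.val, hlN⟩
      rw [h2, key]
      unfold extend
      rw [dif_pos hlN]
    · have h2 : Equiv.swap (Fin.castLE hn i) (Fin.castLE hn j) l = l := by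
        apply Equiv.swap_apply_of_ne_of_ne
        · rintro rfl
          exact hlN i.2
        · rintro rfl
          exact hlN j.2
      rw [h2]
      unfold extend
      rw [dif_neg hlN, dif_neg hlN]

theorem core_n (D : Core W) (hN : 0 < W.N) {n : ℕ} (hn : W.N ≤ n)
    {Ψ : (W.surface.pow n).Pt → ℂ} (h : Odd W n Ψ) (p : (W.surface.pow n).Pt) : Ψ p = 0 := by
  have h1 := core D hN (h.restrict hn p) (fun i => p (Fin.castLE hn i))
  rw [← h1]
  congr 1
  funext i
  unfold extend
  by_cases hi : i.val < W.N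
  · rw [dif_pos hi]
    rfl
  · rw [dif_neg hi]

end Pool.Agent.Helper51.EW

end CX
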